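import Mathlib

/-!
Steiner triple systems in terms of the third-point operation, and an upper bound for the number of
automorphisms.
-/

set_option autoImplicit false

namespace Pool.Agent.Helper174_CycSTS

/-- the third-point operation of a Steiner triple system (only its values at pairs of distinct
points matter) -/
structure IsSt {V : Type} (t : V → V → V) : Prop where
  ne : ∀ x y, x ≠ y → t x y ≠ x
  comm : ∀ x y, x ≠ y → t x y = t y x
  inv : ∀ x y, x ≠ y → t x (t x y) = y

namespace IsSt

variable {V : Type} {t : V → V → V}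

theorem ne' (h : IsSt t) {x y : V} (hxy : x ≠ y) : t x y ≠ y := by
  rw [h.comm x y hxy]
  exact h.ne y x hxy.symm

theorem inv' (h : IsSt t) {x y : V} (hxy : x ≠ y) : t y (t x y) = x := by
  rw [h.comm x y hxy]
  exact h.inv y x hxy.symm

end IsSt

section Blocks

variable {V : Type} [Fintype V] [DecidableEq V]

/-- the blocks -/
def blk (t : V → V → V) : Finset (Finset V) :=
  (Finset.univ.filter fun p : V × V => p.1 ≠ p.2).image fun p => {p.1, p.2, t p.1 p.2}

theorem mem_blk {t : V → V → V} {b : Finset V} :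
    b ∈ blk t ↔ ∃ x y, x ≠ y ∧ b = {x, y, t x y} := by
  unfold blk
  constructor
  · intro h
    obtain ⟨⟨x, y⟩, hp, rfl⟩ := Finset.mem_image.1 h
    exact ⟨x, y, (Finset.mem_filter.1 hp).2, rfl⟩
  · rintro ⟨x, y, hxy, rfl⟩
    exact Finset.mem_image.2 ⟨(x, y), Finset.mem_filter.2 ⟨Finset.mem_univ _, hxy⟩, rfl⟩

theorem card_blk {t : V → V → V} (h : IsSt t) {b : Finset V} (hb : b ∈ blk t) : b.card = 3 := by
  obtain ⟨x, y, hxy, rfl⟩ := mem_blk.1 hb
  rw [Finset.card_eq_three]
  exact ⟨x, y, t x y, hxy, (h.ne x y hxy).symm, (h.ne' hxy).symm, rfl⟩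

theorem eq_of_mem {t : V → V → V} (h : IsSt t) {b : Finset V} (hb : b ∈ blk t) {x y : V}
    (hx : x ∈ b) (hy : y ∈ b) (hxy : x ≠ y) : b = {x, y, t x y} := by
  obtain ⟨u, v, huv, rfl⟩ := mem_blk.1 hb
  have hu := h.ne u v huv
  have hv := h.ne' huv
  simp only [Finset.mem_insert, Finset.mem_singleton] at hx hy
  rcases hx with rfl | rfl | rfl <;> rcases hy with rfl | rfl | rfl
  · exact absurd rfl hxy
  · rfl
  · rw [h.inv _ _ huv]
    ext z; simp only [Finset.mem_insert, Finset.mem_singleton]; tauto
  · rw [h.comm _ _ huv]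
    ext z; simp only [Finset.mem_insert, Finset.mem_singleton]; tauto
  · exact absurd rfl hxy
  · rw [h.inv' huv]
    ext z; simp only [Finset.mem_insert, Finset.mem_singleton]; tauto
  · rw [h.comm _ _ hu, h.inv _ _ huv]
    ext z; simp only [Finset.mem_insert, Finset.mem_singleton]; tauto
  · rw [h.comm _ _ hv, h.inv' huv]
    ext z; simp only [Finset.mem_insert, Finset.mem_singleton]; tauto
  · exact absurd rfl hxy

theorem existsUnique_blk {t : V → V → V} (h : IsSt t) {x y : V} (hxy : x ≠ y) :
    ∃! b : Finset V, b ∈ blk t ∧ x ∈ b ∧ y ∈ b := by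
  refine ⟨{x, y, t x y}, ⟨mem_blk.2 ⟨x, y, hxy, rfl⟩, by simp, by simp⟩, ?_⟩
  rintro b ⟨hb, hx, hy⟩
  exact eq_of_mem h hb hx hy hxy

/-- isomorphisms of third-point operations -/
def Iso {V : Type} (t t' : V → V → V) (σ : Equiv.Perm V) : Prop :=
  ∀ x y, x ≠ y → σ (t x y) = t' (σ x) (σ y)

theorem iso_of_blk {t t' : V → V → V} (h : IsSt t) (h' : IsSt t') {σ : Equiv.Perm V}
    (hσ : ∀ b : Finset V, b ∈ blk t → b.map σ.toEmbedding ∈ blk t') : Iso t t' σ := by
  intro x y hxy
  have h1 := hσ {x, y, t x y} (mem_blk.2 ⟨x, y, hxy, rfl⟩)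
  have h2 : ({x, y, t x y} : Finset V).map σ.toEmbedding = {σ x, σ y, σ (t x y)} := by
    ext z
    simp
  rw [h2] at h1
  have hs : σ x ≠ σ y := fun e => hxy (σ.injective e)
  have h3 := eq_of_mem h' h1 (x := σ x) (y := σ y) (by simp) (by simp) hs
  have h4 : σ (t x y) ∈ ({σ x, σ y, t' (σ x) (σ y)} : Finset V) := by
    rw [← h3]; simp
  simp only [Finset.mem_insert, Finset.mem_singleton] at h4
  rcases h4 with h4 | h4 | h4
  · exact absurd (σ.injective h4) (h.ne x y hxy)
  · exact absurd (σ.injective h4) (h.ne' hxy)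
  · exact h4

end Blocks

theorem Iso.refl {V : Type} (t : V → V → V) : Iso t t (Equiv.refl V) := fun _ _ _ => rfl

theorem Iso.symm {V : Type} {t t' : V → V → V} {σ : Equiv.Perm V} (h : Iso t t' σ) :
    Iso t' t σ.symm := by
  intro x y hxy
  apply σ.injective
  rw [h _ _ (fun e => hxy (σ.symm.injective e))]
  simp

theorem Iso.trans {V : Type} {t t' t'' : V → V → V} {σ ρ : Equiv.Perm V} (h : Iso t t' σ)
    (h' : Iso t' t'' ρ) : Iso t t'' (σ.trans ρ) := by
  intro x y hxy
  rw [Equiv.trans_apply, h x y hxy, h' _ _ (fun e => hxy (σ.injective e))]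
  rfl

section Count

variable {V : Type} [Fintype V] [DecidableEq V]

omit [Fintype V] in
/-- a proper closed subset of a closed set has less than half of its elements -/
theorem two_mul_card_lt {t : V → V → V} (h : IsSt t) {W W' : Finset V} (hsub : W ⊆ W')
    (hW : ∀ u ∈ W, ∀ v ∈ W, u ≠ v → t u v ∈ W) (hW' : ∀ u ∈ W', ∀ v ∈ W', u ≠ v → t u v ∈ W')
    {x : V} (hx : x ∈ W') (hxW : x ∉ W) : 2 * W.card + 1 ≤ W'.card := by
  have hne : ∀ u ∈ W, x ≠ u := fun u hu e => hxW (e ▸ hu)
  have hinj : Set.InjOn (fun u => t x u) (W : Set V) := by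
    intro u hu v hv e
    have h1 := h.inv x u (hne u hu)
    have h2 := h.inv x v (hne v hv)
    simp only at e
    rw [← h1, e, h2]
  have hcard : (W.image fun u => t x u).card = W.card := Finset.card_image_of_injOn hinj
  have hdisj : Disjoint W (W.image fun u => t x u) := by
    rw [Finset.disjoint_left]
    intro v hv hv'
    obtain ⟨u, hu, e⟩ := Finset.mem_image.1 hv'
    have h1 : t x u ∈ W := by rw [e]; exact hv
    have h2 : t x u ≠ u := h.ne' (hne u hu)
    have h3 := hW u hu _ h1 h2.symm
    rw [h.inv' (hne u hu)] at h3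
    exact hxW h3
  have hxn : x ∉ W ∪ W.image fun u => t x u := by
    intro hx'
    rcases Finset.mem_union.1 hx' with hx' | hx'
    · exact hxW hx'
    · obtain ⟨u, hu, e⟩ := Finset.mem_image.1 hx'
      exact h.ne x u (hne u hu) e
  have hle : insert x (W ∪ W.image fun u => t x u) ⊆ W' := by
    intro v hv
    rcases Finset.mem_insert.1 hv with rfl | hv
    · exact hx
    · rcases Finset.mem_union.1 hv with hv | hv
      · exact hsub hv
      · obtain ⟨u, hu, rfl⟩ := Finset.mem_image.1 hv
        exact hW' _ hx _ (hsub hu) (hne u hu)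
  have := Finset.card_le_card hle
  rw [Finset.card_insert_of_notMem hxn, Finset.card_union_of_disjoint hdisj, hcard] at this
  omega

/-- the points at which all members of a family of permutations agree -/
def agree (A : Finset (Equiv.Perm V)) : Finset V :=
  Finset.univ.filter fun x => ∀ α ∈ A, ∀ β ∈ A, α x = β x

theorem agree_closed {t : V → V → V} {A : Finset (Equiv.Perm V)}
    (hA : ∀ α ∈ A, Iso t t α) : ∀ u ∈ agree A, ∀ v ∈ agree A, u ≠ v → t u v ∈ agree A := by
  intro u hu v hv huv
  simp only [agree, Finset.mem_filter, Finset.mem_univ, true_and] at hu hv ⊢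
  intro α hα β hβ
  rw [hA α hα u v huv, hA β hβ u v huv, hu α hα β hβ, hv α hα β hβ]

theorem exists_agree [Nonempty V] {t : V → V → V} (h : IsSt t) (L : ℕ) : ∀ (c : ℕ), 1 ≤ c →
    ∀ (A : Finset (Equiv.Perm V)), (∀ α ∈ A, Iso t t α) → c * Fintype.card V ^ L < A.card →
    ∃ A' : Finset (Equiv.Perm V), A' ⊆ A ∧ c < A'.card ∧ 2 ^ L ≤ (agree A').card + 1 := by
  induction L with
  | zero =>
    intro c _ A _ hc
    exact ⟨A, subset_rfl, by simpa using hc, by simp⟩
  | succ L ih =>
    intro c hc A hA hcA
    have hV : 0 < Fintype.card V := Fintype.card_pos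
    obtain ⟨A', hA'A, hA'c, hA'L⟩ := ih (c * Fintype.card V) (Nat.mul_pos hc hV) A hA (by
      rw [mul_assoc, ← pow_succ']; exact hcA)
    -- there is a point of disagreement
    have hne : agree A' ≠ Finset.univ := by
      intro he
      have h1 : A'.card ≤ 1 := by
        rw [Finset.card_le_one]
        intro α hα β hβ
        ext x
        have : x ∈ agree A' := by rw [he]; exact Finset.mem_univ x
        simp only [agree, Finset.mem_filter, Finset.mem_univ, true_and] at this
        exact this α hα β hβ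
      have : 1 ≤ c * Fintype.card V := Nat.mul_pos hc hV
      omega
    obtain ⟨p, hp⟩ : ∃ p, p ∉ agree A' := by
      by_contra hcon
      push Not at hcon
      exact hne (Finset.eq_univ_iff_forall.2 hcon)
    -- pigeonhole
    obtain ⟨q, -, hq⟩ := Finset.exists_lt_card_fiber_of_mul_lt_card_of_maps_to
      (s := A') (t := (Finset.univ : Finset V)) (f := fun α => α p) (n := c)
      (fun _ _ => Finset.mem_univ _) (by rw [Finset.card_univ, mul_comm]; exact hA'c)
    refine ⟨A'.filter fun α => α p = q, (Finset.filter_subset _ _).trans hA'A, hq, ?_⟩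
    have hsub : agree A' ⊆ agree (A'.filter fun α => α p = q) := by
      intro x hx
      simp only [agree, Finset.mem_filter, Finset.mem_univ, true_and] at hx ⊢
      exact fun α hα β hβ => hx α hα.1 β hβ.1
    have hpm : p ∈ agree (A'.filter fun α => α p = q) := by
      simp only [agree, Finset.mem_filter, Finset.mem_univ, true_and]
      exact fun α hα β hβ => hα.2.trans hβ.2.symm
    have h2 := two_mul_card_lt h hsub (agree_closed fun α hα => hA α (hA'A hα))
      (agree_closed fun α hα => hA α (hA'A (Finset.mem_filter.1 hα).1)) hpm hp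
    rw [pow_succ]
    omega

/-- the number of automorphisms -/
theorem card_aut_le [Nonempty V] {t : V → V → V} (h : IsSt t) {L : ℕ} (hL : Fintype.card V < 2 ^ L)
    (A : Finset (Equiv.Perm V)) (hA : ∀ α ∈ A, Iso t t α) : A.card ≤ Fintype.card V ^ L := by
  by_contra hcon
  push Not at hcon
  obtain ⟨A', hA'A, hA'c, hA'L⟩ := exists_agree h L 1 le_rfl A hA (by rwa [one_mul])
  have hne : agree A' ≠ Finset.univ := by
    intro he
    have h1 : A'.card ≤ 1 := by
      rw [Finset.card_le_one]
      intro α hα β hβ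
      ext x
      have : x ∈ agree A' := by rw [he]; exact Finset.mem_univ x
      simp only [agree, Finset.mem_filter, Finset.mem_univ, true_and] at this
      exact this α hα β hβ
    omega
  have h2 : (agree A').card < Fintype.card V := by
    rw [← Finset.card_univ]
    exact Finset.card_lt_card ((Finset.subset_univ _).ssubset_of_ne hne)
  omega

end Count

end Pool.Agent.Helper174_CycSTS
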