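import Pool.Agent.Helper174_CycSTS.Basic

/-!
Cyclic Steiner triple systems from difference triples; reversing the orbits gives many pairwise
nonisomorphic ones.
-/

set_option autoImplicit false

namespace Pool.Agent.Helper174_CycSTS

section Dif

variable {n : ℕ}

/-- `{x, x + d, x + τ d}` is the block through `x` and `x + d` -/
structure IsDif (τ : ZMod n → ZMod n) : Prop where
  ne0 : ∀ d, d ≠ 0 → τ d ≠ 0
  inv : ∀ d, d ≠ 0 → τ (τ d) = d
  neg : ∀ d, d ≠ 0 → τ (-d) = τ d - d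

/-- the third point -/
def tp (τ : ZMod n → ZMod n) (x y : ZMod n) : ZMod n := x + τ (y - x)

theorem IsDif.isSt {τ : ZMod n → ZMod n} (h : IsDif τ) : IsSt (tp τ) := by
  refine ⟨?_, ?_, ?_⟩
  · intro x y hxy e
    exact h.ne0 (y - x) (sub_ne_zero.2 hxy.symm) (by simpa [tp] using e)
  · intro x y hxy
    have h1 := h.neg (y - x) (sub_ne_zero.2 hxy.symm)
    rw [neg_sub] at h1
    simp only [tp, h1]
    ring
  · intro x y hxy
    have h1 := h.inv (y - x) (sub_ne_zero.2 hxy.symm)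
    simp only [tp, add_sub_cancel_left, h1]
    ring

theorem tp_add (τ : ZMod n → ZMod n) (x y c : ZMod n) : tp τ (x + c) (y + c) = tp τ x y + c := by
  simp only [tp, add_sub_add_right_eq_sub]
  ring

theorem shift_mem_blk [NeZero n] {τ : ZMod n → ZMod n} {b : Finset (ZMod n)}
    (hb : b ∈ blk (tp τ)) : b.image (fun x => x + 1) ∈ blk (tp τ) := by
  obtain ⟨x, y, hxy, rfl⟩ := mem_blk.1 hb
  refine mem_blk.2 ⟨x + 1, y + 1, fun e => hxy (add_right_cancel e), ?_⟩
  rw [tp_add]
  simp [Finset.image_insert]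

theorem iso_shift (τ : ZMod n → ZMod n) : Iso (tp τ) (tp τ) (Equiv.addRight 1) := by
  intro x y _
  simp [tp_add]

theorem eq_add_of_comm [NeZero n] {ρ : ZMod n → ZMod n} (h : ∀ x, ρ (x + 1) = ρ x + 1)
    (x : ZMod n) : ρ x = x + ρ 0 := by
  have h1 : ∀ m : ℕ, ρ (m : ZMod n) = (m : ZMod n) + ρ 0 := by
    intro m
    induction m with
    | zero => simp
    | succ m ih => rw [Nat.cast_succ, h, ih]; ring
  have h2 := h1 x.val
  rwa [ZMod.natCast_zmod_val] at h2

end Dif

/-- difference triples `(a i 0, a i 1, a i 2)` together with some elements `z` of order dividing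
three -/
structure Data (n k w : ℕ) where
  /-- the differences -/
  a : Fin k → Fin 3 → ZMod n
  sum : ∀ i, a i 0 + a i 1 + a i 2 = 0
  /-- the short orbits -/
  z : Fin w → ZMod n
  three : ∀ j, 3 * z j = 0
  bij : Function.Bijective (Sum.elim z
    (fun p : Fin k × Fin 3 × Bool => if p.2.2 then - a p.1 p.2.1 else a p.1 p.2.1))

namespace Data

variable {n k w : ℕ} (D : Data n k w)

/-- all differences -/
noncomputable def g : Fin w ⊕ (Fin k × Fin 3 × Bool) ≃ ZMod n := Equiv.ofBijective _ D.bij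

theorem g_inl (j : Fin w) : D.g (Sum.inl j) = D.z j := rfl

theorem g_false (i : Fin k) (j : Fin 3) : D.g (Sum.inr (i, j, false)) = D.a i j := rfl

theorem g_true (i : Fin k) (j : Fin 3) : D.g (Sum.inr (i, j, true)) = - D.a i j := rfl

/-- the direction of the orbit `i` -/
def dl (ε : Fin k → Bool) (i : Fin k) : Fin 3 := if ε i then 1 else 2

/-- the third point of the block through `0` and `d` -/
noncomputable def tau (ε : Fin k → Bool) (d : ZMod n) : ZMod n :=
  match D.g.symm d with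
  | Sum.inl _ => -d
  | Sum.inr (i, j, false) => - D.a i (j + dl ε i)
  | Sum.inr (i, j, true) => D.a i (j - dl ε i)

theorem tau_z (ε : Fin k → Bool) (j : Fin w) : D.tau ε (D.z j) = - D.z j := by
  have h : D.g.symm (D.z j) = Sum.inl j := by rw [← D.g_inl, Equiv.symm_apply_apply]
  simp only [tau, h]

theorem tau_a (ε : Fin k → Bool) (i : Fin k) (j : Fin 3) :
    D.tau ε (D.a i j) = - D.a i (j + dl ε i) := by
  have h : D.g.symm (D.a i j) = Sum.inr (i, j, false) := by
    rw [← D.g_false, Equiv.symm_apply_apply]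
  simp only [tau, h]

theorem tau_neg (ε : Fin k → Bool) (i : Fin k) (j : Fin 3) :
    D.tau ε (- D.a i j) = D.a i (j - dl ε i) := by
  have h : D.g.symm (- D.a i j) = Sum.inr (i, j, true) := by
    rw [← D.g_true, Equiv.symm_apply_apply]
  simp only [tau, h]

theorem a_ne_zero (i : Fin k) (j : Fin 3) : D.a i j ≠ 0 := by
  intro h
  have h1 : D.g (Sum.inr (i, j, false)) = D.g (Sum.inr (i, j, true)) := by
    rw [D.g_false, D.g_true, h, neg_zero]
  have h2 := D.g.injective h1
  simp at h2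

theorem z_ne (i : Fin k) (j : Fin 3) (l : Fin w) : D.z l ≠ D.a i j := by
  intro h
  have h1 : D.g (Sum.inl l) = D.g (Sum.inr (i, j, false)) := h
  exact absurd (D.g.injective h1) (by simp)

theorem z_ne' (i : Fin k) (j : Fin 3) (l : Fin w) : D.z l ≠ - D.a i j := by
  intro h
  have h1 : D.g (Sum.inl l) = D.g (Sum.inr (i, j, true)) := h
  exact absurd (D.g.injective h1) (by simp)

theorem cases (d : ZMod n) : (∃ l, d = D.z l) ∨ (∃ i j, d = D.a i j) ∨ (∃ i j, d = - D.a i j) := by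
  obtain ⟨q, rfl⟩ := D.g.surjective d
  rcases q with l | ⟨i, j, _ | _⟩
  · exact Or.inl ⟨l, rfl⟩
  · exact Or.inr (Or.inl ⟨i, j, rfl⟩)
  · exact Or.inr (Or.inr ⟨i, j, rfl⟩)

theorem neg_z (l : Fin w) : ∃ l', - D.z l = D.z l' := by
  rcases D.cases (- D.z l) with h | ⟨i, j, h⟩ | ⟨i, j, h⟩
  · exact h
  · exact absurd (by rw [← h, neg_neg]) (D.z_ne' i j l)
  · exact absurd (neg_injective h) (D.z_ne i j l)

theorem sum3 (ε : Fin k → Bool) (i : Fin k) (j : Fin 3) :
    D.a i j + D.a i (j + dl ε i) + D.a i (j - dl ε i) = 0 := by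
  have h := D.sum i
  have e1 : (-2 : Fin 3) = 1 := by decide
  have e2 : (-1 : Fin 3) = 2 := by decide
  unfold dl
  cases ε i <;> fin_cases j <;> simp [e1, e2] <;> linear_combination h

theorem isDif (ε : Fin k → Bool) : IsDif (D.tau ε) := by
  refine ⟨?_, ?_, ?_⟩
  · intro d hd
    rcases D.cases d with ⟨l, rfl⟩ | ⟨i, j, rfl⟩ | ⟨i, j, rfl⟩
    · rw [tau_z]; exact neg_ne_zero.2 hd
    · rw [tau_a]; exact neg_ne_zero.2 (D.a_ne_zero _ _)
    · rw [tau_neg]; exact D.a_ne_zero _ _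
  · intro d hd
    rcases D.cases d with ⟨l, rfl⟩ | ⟨i, j, rfl⟩ | ⟨i, j, rfl⟩
    · obtain ⟨l', h⟩ := D.neg_z l
      rw [tau_z, h, tau_z, ← h, neg_neg]
    · rw [tau_a, tau_neg, add_sub_cancel_right]
    · rw [tau_neg, tau_a, sub_add_cancel]
  · intro d hd
    rcases D.cases d with ⟨l, rfl⟩ | ⟨i, j, rfl⟩ | ⟨i, j, rfl⟩
    · obtain ⟨l', h⟩ := D.neg_z l
      rw [tau_z, h, tau_z, ← h]
      linear_combination D.three l
    · rw [tau_a, tau_neg]
      linear_combination D.sum3 ε i j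
    · rw [neg_neg, tau_a, tau_neg]
      linear_combination - D.sum3 ε i j

theorem tau_inj [NeZero n] {ε ε' : Fin k → Bool} (h : ∀ d, d ≠ 0 → D.tau ε d = D.tau ε' d) :
    ε = ε' := by
  funext i
  have h1 := h (D.a i 0) (D.a_ne_zero i 0)
  rw [tau_a, tau_a] at h1
  have h2 : D.g (Sum.inr (i, 0 + dl ε i, true)) = D.g (Sum.inr (i, 0 + dl ε' i, true)) := h1
  have h3 := D.g.injective h2
  simp only [Sum.inr.injEq, Prod.mk.injEq, true_and, and_true, zero_add] at h3
  unfold dl at h3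
  revert h3
  cases ε i <;> cases ε' i <;> decide

theorem class_card [NeZero n] {L : ℕ} (hL : n < 2 ^ L) (ε₀ : Fin k → Bool)
    (S : Finset (Fin k → Bool))
    (hS : ∀ ε ∈ S, ∃ σ, Iso (tp (D.tau ε₀)) (tp (D.tau ε)) σ) : S.card ≤ n ^ L := by
  classical
  have hex : ∀ ε : Fin k → Bool, ∃ σ, ε ∈ S → Iso (tp (D.tau ε₀)) (tp (D.tau ε)) σ := by
    intro ε
    by_cases h : ε ∈ S
    · obtain ⟨σ, hσ⟩ := hS ε h
      exact ⟨σ, fun _ => hσ⟩
    · exact ⟨1, fun h' => absurd h' h⟩
  choose σ hσ using hex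
  let α : (Fin k → Bool) → Equiv.Perm (ZMod n) := fun ε =>
    ((σ ε).trans (Equiv.addRight 1)).trans (σ ε).symm
  have hα : ∀ ε x, α ε x = (σ ε).symm (σ ε x + 1) := fun ε x => rfl
  have hinj : Set.InjOn α (S : Set (Fin k → Bool)) := by
    intro ε hε ε' hε' e
    have hρ : Iso (tp (D.tau ε)) (tp (D.tau ε')) ((σ ε).symm.trans (σ ε')) :=
      (hσ ε hε).symm.trans (hσ ε' hε')
    have hcomm : ∀ x, ((σ ε).symm.trans (σ ε')) (x + 1) = ((σ ε).symm.trans (σ ε')) x + 1 := by
      intro x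
      have h1 := congrArg (fun f : Equiv.Perm (ZMod n) => f ((σ ε).symm x)) e
      simp only [hα, Equiv.apply_symm_apply] at h1
      simp only [Equiv.trans_apply]
      rw [h1, Equiv.apply_symm_apply]
    have htr := eq_add_of_comm hcomm
    apply D.tau_inj
    intro d hd
    have h2 := hρ 0 d hd.symm
    rw [htr, htr d] at h2
    have h3 : ((σ ε).symm.trans (σ ε')) (tp (D.tau ε) 0 d) = tp (D.tau ε) 0 d +
      ((σ ε).symm.trans (σ ε')) 0 := htr _
    simp only [tp, zero_add, sub_zero] at h2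
    have h4 : D.tau ε d + ((σ ε).symm.trans (σ ε')) 0 = ((σ ε).symm.trans (σ ε')) 0 +
      D.tau ε' d := by
      rw [h2]
      congr 2
      ring
    linear_combination h4
  rw [← Finset.card_image_of_injOn hinj]
  have h := card_aut_le (t := tp (D.tau ε₀)) (D.isDif ε₀).isSt (L := L)
    (by rw [ZMod.card]; exact hL) (S.image α) (by
      intro β hβ
      obtain ⟨ε, hε, rfl⟩ := Finset.mem_image.1 hβ
      exact ((hσ ε hε).trans (iso_shift _)).trans (hσ ε hε).symm)
  rwa [ZMod.card] at h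

/-- isomorphism of the systems of the family -/
def setoid : Setoid (Fin k → Bool) where
  r ε ε' := ∃ σ, Iso (tp (D.tau ε)) (tp (D.tau ε')) σ
  iseqv := ⟨fun _ => ⟨_, Iso.refl _⟩, fun ⟨_, h⟩ => ⟨_, h.symm⟩, fun ⟨_, h⟩ ⟨_, h'⟩ => ⟨_, h.trans h'⟩⟩

theorem exists_family [NeZero n] {L M : ℕ} (hL : n < 2 ^ L) (hM : M * n ^ L ≤ 2 ^ k) :
    ∃ e : Fin M → (Fin k → Bool),
      ∀ i j, i ≠ j → ¬ ∃ σ, Iso (tp (D.tau (e i))) (tp (D.tau (e j))) σ := by
  classical
  have h1 : (Finset.univ : Finset (Fin k → Bool)).card ≤ n ^ L *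
      (Finset.univ.image (fun ε : Fin k → Bool => (Quotient.mk _ ε : Quotient D.setoid))).card := by
    apply Finset.card_le_mul_card_image
    intro q hq
    obtain ⟨ε₀, -, rfl⟩ := Finset.mem_image.1 hq
    apply D.class_card hL ε₀
    intro ε hε
    exact D.setoid.symm (Quotient.exact (Finset.mem_filter.1 hε).2)
  rw [Finset.card_univ, Fintype.card_fun, Fintype.card_bool, Fintype.card_fin] at h1
  have h2 : M ≤ (Finset.univ.image
      (fun ε : Fin k → Bool => (Quotient.mk _ ε : Quotient D.setoid))).card := by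
    have hn : 0 < n ^ L := pow_pos (Nat.pos_of_ne_zero (NeZero.ne n)) L
    have h3 := hM.trans h1
    rw [mul_comm] at h3
    exact Nat.le_of_mul_le_mul_left h3 hn
  have h4 : M ≤ Fintype.card (Quotient D.setoid) := h2.trans (Finset.card_le_univ _)
  obtain ⟨f⟩ : Nonempty (Fin M ↪ Quotient D.setoid) := by
    apply Function.Embedding.nonempty_of_card_le
    rwa [Fintype.card_fin]
  refine ⟨fun i => (f i).out, fun i j hij => ?_⟩
  intro h
  apply hij
  apply f.injective
  rw [← (f i).out_eq, ← (f j).out_eq]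
  exact Quotient.sound h

end Data

end Pool.Agent.Helper174_CycSTS
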