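import Pool.Agent.Helper174_CycSTS.NatData

/-!
Peltesohn's difference triples.
-/

set_option autoImplicit false

namespace Pool.Agent.Helper174_CycSTS

/-- `n = 18 s + 1` -/
def a1 (s i : ℕ) : ℕ :=
  if i < s then 3 * i + 1 else if i < 2 * s then 3 * (i - s) + 2
    else if i < 3 * s - 1 then 3 * (i - 2 * s) + 3 else 3 * s

/-- `n = 18 s + 1` -/
def b1 (s i : ℕ) : ℕ :=
  if i < s then 4 * s - i + 1 else if i < 2 * s then 8 * s - (i - s)
    else if i < 3 * s - 1 then 6 * s - 2 * (i - 2 * s) - 1 else 3 * s + 1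

/-- `n = 18 s + 1` -/
def c1 (s i : ℕ) : ℕ :=
  if i < s then 4 * s + 2 * i + 2 else if i < 2 * s then
      (if 2 * (i - s) + 2 ≤ s then 8 * s + 2 * (i - s) + 2 else 10 * s - 2 * (i - s) - 1)
    else if i < 3 * s - 1 then 6 * s + (i - 2 * s) + 2 else 6 * s + 1

theorem nd1 (s : ℕ) (hs : 1 ≤ s) : ND (18 * s + 1) (3 * s) (a1 s) (b1 s) := by
  have hc : ∀ i < 3 * s, nm (18 * s + 1) (a1 s i + b1 s i) = c1 s i := by
    intro i hi
    unfold nm a1 b1 c1
    split_ifs <;> omega
  constructor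
  · omega
  · intro i hi
    unfold a1 b1
    split_ifs <;> omega
  · intro i hi
    rw [hc i hi]
    unfold a1 b1 c1
    split_ifs <;> omega
  · intro i hi i' hi'
    unfold a1
    split_ifs <;> omega
  · intro i hi i' hi'
    unfold b1
    split_ifs <;> omega
  · intro i hi i' hi'
    rw [hc i hi, hc i' hi']
    unfold c1
    split_ifs <;> omega
  · intro i hi i' hi'
    unfold a1 b1
    split_ifs <;> omega
  · intro i hi i' hi'
    rw [hc i' hi']
    unfold a1 c1
    split_ifs <;> omega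
  · intro i hi i' hi'
    rw [hc i' hi']
    unfold b1 c1
    split_ifs <;> omega

end Pool.Agent.Helper174_CycSTS
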