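import Pool.Agent.Helper174_CycSTS.NatData

/-!
Peltesohn's difference triples for `n = 18 * s + 13`.
-/

set_option autoImplicit false

namespace Pool.Agent.Helper174_CycSTS

/-- first differences -/
def a13 (s i : ℕ) : ℕ :=
  if i < s then 3 * i + 2
    else if i < 2 * s then 3 * (i - s) + 3
    else if i < 3 * s + 1 then 3 * (i - 2 * s) + 1
    else 3 * s + 2

/-- second differences -/
def b13 (s i : ℕ) : ℕ :=
  if i < s then 6 * s - 2 * i + 3
    else if i < 2 * s then 8 * s - (i - s) + 5
    else if i < 3 * s + 1 then 4 * s - (i - 2 * s) + 3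
    else 7 * s + 5

/-- third differences -/
def c13 (s i : ℕ) : ℕ :=
  if i < s then 6 * s + i + 5
    else if i < 2 * s then (if 2 * (i - s) + 2 ≤ s then 8 * s + 2 * (i - s) + 8 else 10 * s - 2 * (i - s) + 5)
    else if i < 3 * s + 1 then 4 * s + 2 * (i - 2 * s) + 4
    else 8 * s + 6

theorem nd13 (s : ℕ) (hs : 1 ≤ s) : ND (18 * s + 13) (3 * s + 2) (a13 s) (b13 s) := by
  have hc : ∀ i < 3 * s + 2, nm (18 * s + 13) (a13 s i + b13 s i) = c13 s i := by
    intro i hi
    unfold nm a13 b13 c13
    split_ifs <;> omega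
  constructor
  · omega
  · intro i hi
    unfold a13 b13
    split_ifs <;> omega
  · intro i hi
    rw [hc i hi]
    unfold a13 b13 c13
    split_ifs <;> omega
  · intro i hi i' hi'
    unfold a13
    split_ifs <;> omega
  · intro i hi i' hi'
    unfold b13
    split_ifs <;> omega
  · intro i hi i' hi'
    rw [hc i hi, hc i' hi']
    unfold c13
    split_ifs <;> omega
  · intro i hi i' hi'
    unfold a13 b13
    split_ifs <;> omega
  · intro i hi i' hi'
    rw [hc i' hi']
    unfold a13 c13
    split_ifs <;> omega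
  · intro i hi i' hi'
    rw [hc i' hi']
    unfold b13 c13
    split_ifs <;> omega

end Pool.Agent.Helper174_CycSTS
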