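import Pool.Agent.Helper174_CycSTS.NatData

/-!
Peltesohn's difference triples for `n = 18 * s + 15`.
-/

set_option autoImplicit false

namespace Pool.Agent.Helper174_CycSTS

/-- first differences -/
def a15 (s i : ℕ) : ℕ :=
  if i < s + 1 then 3 * i + 1
    else if i < 2 * s + 2 then 3 * (i - (s + 1)) + 2
    else 3 * (i - (2 * s + 2)) + 3

/-- second differences -/
def b15 (s i : ℕ) : ℕ :=
  if i < s + 1 then 4 * s - i + 3
    else if i < 2 * s + 2 then 8 * s - (i - (s + 1)) + 6
    else 6 * s - 2 * (i - (2 * s + 2)) + 3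

/-- third differences -/
def c15 (s i : ℕ) : ℕ :=
  if i < s + 1 then 4 * s + 2 * i + 4
    else if i < 2 * s + 2 then (if 2 * (i - (s + 1)) + 1 ≤ s then 8 * s + 2 * (i - (s + 1)) + 8 else 10 * s - 2 * (i - (s + 1)) + 7)
    else 6 * s + (i - (2 * s + 2)) + 6

theorem nd15 (s : ℕ) (hs : 1 ≤ s) : ND (18 * s + 15) (3 * s + 2) (a15 s) (b15 s) := by
  have hc : ∀ i < 3 * s + 2, nm (18 * s + 15) (a15 s i + b15 s i) = c15 s i := by
    intro i hi
    unfold nm a15 b15 c15
    split_ifs <;> omega
  constructor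
  · omega
  · intro i hi
    unfold a15 b15
    split_ifs <;> omega
  · intro i hi
    rw [hc i hi]
    unfold a15 b15 c15
    split_ifs <;> omega
  · intro i hi i' hi'
    unfold a15
    split_ifs <;> omega
  · intro i hi i' hi'
    unfold b15
    split_ifs <;> omega
  · intro i hi i' hi'
    rw [hc i hi, hc i' hi']
    unfold c15
    split_ifs <;> omega
  · intro i hi i' hi'
    unfold a15 b15
    split_ifs <;> omega
  · intro i hi i' hi'
    rw [hc i' hi']
    unfold a15 c15
    split_ifs <;> omega
  · intro i hi i' hi'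
    rw [hc i' hi']
    unfold b15 c15
    split_ifs <;> omega

end Pool.Agent.Helper174_CycSTS
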