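import Pool.Agent.Helper174_CycSTS.NatData

/-!
Peltesohn's difference triples for `n = 18 * s + 3`.
-/

set_option autoImplicit false

namespace Pool.Agent.Helper174_CycSTS

/-- first differences -/
def a3 (s i : ℕ) : ℕ :=
  if i < s then 3 * i + 1
    else if i < 2 * s then 3 * (i - s) + 2
    else 3 * (i - 2 * s) + 3

/-- second differences -/
def b3 (s i : ℕ) : ℕ :=
  if i < s then 8 * s - i + 1
    else if i < 2 * s then 4 * s - (i - s)
    else 6 * s - 2 * (i - 2 * s) - 1

/-- third differences -/
def c3 (s i : ℕ) : ℕ :=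
  if i < s then (if 2 * i + 1 ≤ s then 8 * s + 2 * i + 2 else 10 * s - 2 * i + 1)
    else if i < 2 * s then 4 * s + 2 * (i - s) + 2
    else 6 * s + (i - 2 * s) + 2

theorem nd3 (s : ℕ) (hs : 1 ≤ s) : ND (18 * s + 3) (3 * s) (a3 s) (b3 s) := by
  have hc : ∀ i < 3 * s, nm (18 * s + 3) (a3 s i + b3 s i) = c3 s i := by
    intro i hi
    unfold nm a3 b3 c3
    split_ifs <;> omega
  constructor
  · omega
  · intro i hi
    unfold a3 b3
    split_ifs <;> omega
  · intro i hi
    rw [hc i hi]
    unfold a3 b3 c3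
    split_ifs <;> omega
  · intro i hi i' hi'
    unfold a3
    split_ifs <;> omega
  · intro i hi i' hi'
    unfold b3
    split_ifs <;> omega
  · intro i hi i' hi'
    rw [hc i hi, hc i' hi']
    unfold c3
    split_ifs <;> omega
  · intro i hi i' hi'
    unfold a3 b3
    split_ifs <;> omega
  · intro i hi i' hi'
    rw [hc i' hi']
    unfold a3 c3
    split_ifs <;> omega
  · intro i hi i' hi'
    rw [hc i' hi']
    unfold b3 c3
    split_ifs <;> omega

end Pool.Agent.Helper174_CycSTS
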