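import Pool.Agent.Helper174_CycSTS.NatData

/-!
Peltesohn's difference triples for `n = 18 * s + 9`.
-/

set_option autoImplicit false

namespace Pool.Agent.Helper174_CycSTS

/-- first differences -/
def a9 (s i : ℕ) : ℕ :=
  if i < s + 1 then 3 * i + 1
    else if i + 2 < 2 * s then 3 * i + 5 - 3 * s
    else if i + 4 < 3 * s then 3 * i + 12 - 6 * s
    else if i + 4 = 3 * s then 2
    else if i + 3 = 3 * s then 3
    else if i + 2 = 3 * s then 5
    else if i + 1 = 3 * s then 3 * s - 1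
    else 3 * s

/-- second differences -/
def b9 (s i : ℕ) : ℕ :=
  if i < s + 1 then 4 * s - i + 3
    else if i + 2 < 2 * s then 9 * s + 1 - i
    else if i + 4 < 3 * s then 10 * s - (2 * i + 5)
    else if i + 4 = 3 * s then 8 * s + 3
    else if i + 3 = 3 * s then 8 * s + 1
    else if i + 2 = 3 * s then 8 * s + 2
    else if i + 1 = 3 * s then 3 * s + 2
    else 7 * s + 3

/-- third differences -/
def c9 (s i : ℕ) : ℕ :=
  if i < s + 1 then 4 * s + 2 * i + 4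
    else if i + 2 < 2 * s then (if 2 * i + 2 ≤ 3 * s then 6 * s + 2 * i + 6 else 12 * s + 3 - 2 * i)
    else if i + 4 < 3 * s then 4 * s + i + 7
    else if i + 4 = 3 * s then 8 * s + 5
    else if i + 3 = 3 * s then 8 * s + 4
    else if i + 2 = 3 * s then 8 * s + 7
    else if i + 1 = 3 * s then 6 * s + 1
    else 8 * s + 6

theorem spec9 (s i : ℕ) (hs : 4 ≤ s) (hi : i < 3 * s + 1) :
    ((i ≤ s ∧ a9 s i = 3 * i + 1 ∧ b9 s i + i = 4 * s + 3 ∧ c9 s i = 4 * s + 2 * i + 4) ∨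
    (s < i ∧ 2 * i + 2 ≤ 3 * s ∧ a9 s i + 3 * s = 3 * i + 5 ∧ b9 s i + i = 9 * s + 1 ∧
      c9 s i = 6 * s + 2 * i + 6) ∨
    (3 * s < 2 * i + 2 ∧ i + 2 < 2 * s ∧ a9 s i + 3 * s = 3 * i + 5 ∧ b9 s i + i = 9 * s + 1 ∧
      c9 s i + 2 * i = 12 * s + 3) ∨
    (2 * s ≤ i + 2 ∧ i + 4 < 3 * s ∧ a9 s i + 6 * s = 3 * i + 12 ∧
      b9 s i + 2 * i + 5 = 10 * s ∧ c9 s i = 4 * s + i + 7)) ∨
    ((i + 4 = 3 * s ∧ a9 s i = 2 ∧ b9 s i = 8 * s + 3 ∧ c9 s i = 8 * s + 5) ∨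
    (i + 3 = 3 * s ∧ a9 s i = 3 ∧ b9 s i = 8 * s + 1 ∧ c9 s i = 8 * s + 4) ∨
    (i + 2 = 3 * s ∧ a9 s i = 5 ∧ b9 s i = 8 * s + 2 ∧ c9 s i = 8 * s + 7) ∨
    (i + 1 = 3 * s ∧ a9 s i + 1 = 3 * s ∧ b9 s i = 3 * s + 2 ∧ c9 s i = 6 * s + 1) ∨
    (i = 3 * s ∧ a9 s i = 3 * s ∧ b9 s i = 7 * s + 3 ∧ c9 s i = 8 * s + 6)) := by
  unfold a9 b9 c9
  split_ifs with h1 h2 h3 h4 h5 h6 h7 h8
  · exact Or.inl (Or.inl (by omega))
  · exact Or.inl (Or.inr (Or.inl (by omega)))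
  · exact Or.inl (Or.inr (Or.inr (Or.inl (by omega))))
  · exact Or.inl (Or.inr (Or.inr (Or.inr (by omega))))
  · exact Or.inr (Or.inl (by omega))
  · exact Or.inr (Or.inr (Or.inl (by omega)))
  · exact Or.inr (Or.inr (Or.inr (Or.inl (by omega))))
  · exact Or.inr (Or.inr (Or.inr (Or.inr (Or.inl (by omega)))))
  · exact Or.inr (Or.inr (Or.inr (Or.inr (Or.inr (by omega)))))

theorem nd9 (s : ℕ) (hs : 4 ≤ s) : ND (18 * s + 9) (3 * s + 1) (a9 s) (b9 s) := by
  have hc : ∀ i < 3 * s + 1, nm (18 * s + 9) (a9 s i + b9 s i) = c9 s i := by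
    intro i hi
    unfold nm a9 b9 c9
    split_ifs <;> omega
  have key : ∀ i < 3 * s + 1, ∀ i' < 3 * s + 1, i ≤ i' →
      (a9 s i = a9 s i' → i = i') ∧ (b9 s i = b9 s i' → i = i') ∧
      (c9 s i = c9 s i' → i = i') ∧ a9 s i ≠ b9 s i' ∧ a9 s i' ≠ b9 s i ∧ a9 s i ≠ c9 s i' ∧
      a9 s i' ≠ c9 s i ∧ b9 s i ≠ c9 s i' ∧ b9 s i' ≠ c9 s i := by
    intro i hi i' hi' hle
    have h := spec9 s i hs hi
    have h' := spec9 s i' hs hi'
    generalize a9 s i = A at h ⊢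
    generalize b9 s i = B at h ⊢
    generalize c9 s i = C at h ⊢
    generalize a9 s i' = A' at h' ⊢
    generalize b9 s i' = B' at h' ⊢
    generalize c9 s i' = C' at h' ⊢
    rcases h with (h | h | h | h) | (h | h | h | h | h) <;>
      rcases h' with (h' | h' | h' | h') | (h' | h' | h' | h' | h') <;>
      (refine ⟨?_, ?_, ?_, ?_, ?_, ?_, ?_, ?_, ?_⟩ <;> omega)
  constructor
  · omega
  · intro i hi
    have h := spec9 s i hs hi
    omega
  · intro i hi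
    rw [hc i hi]
    have h := spec9 s i hs hi
    omega
  · intro i hi i' hi' e
    rcases Nat.le_total i i' with hle | hle
    · exact (key i hi i' hi' hle).1 e
    · exact ((key i' hi' i hi hle).1 e.symm).symm
  · intro i hi i' hi' e
    rcases Nat.le_total i i' with hle | hle
    · exact (key i hi i' hi' hle).2.1 e
    · exact ((key i' hi' i hi hle).2.1 e.symm).symm
  · intro i hi i' hi' e
    rw [hc i hi, hc i' hi'] at e
    rcases Nat.le_total i i' with hle | hle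
    · exact (key i hi i' hi' hle).2.2.1 e
    · exact ((key i' hi' i hi hle).2.2.1 e.symm).symm
  · intro i hi i' hi'
    rcases Nat.le_total i i' with hle | hle
    · exact (key i hi i' hi' hle).2.2.2.1
    · exact (key i' hi' i hi hle).2.2.2.2.1
  · intro i hi i' hi'
    rw [hc i' hi']
    rcases Nat.le_total i i' with hle | hle
    · exact (key i hi i' hi' hle).2.2.2.2.2.1
    · exact (key i' hi' i hi hle).2.2.2.2.2.2.1
  · intro i hi i' hi'
    rw [hc i' hi']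
    rcases Nat.le_total i i' with hle | hle
    · exact (key i hi i' hi' hle).2.2.2.2.2.2.2.1
    · exact (key i' hi' i hi hle).2.2.2.2.2.2.2.2

end Pool.Agent.Helper174_CycSTS
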