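import Pool.Agent.Helper174_CycSTS.Fam1
import Pool.Agent.Helper174_CycSTS.Fam7
import Pool.Agent.Helper174_CycSTS.Fam13
import Pool.Agent.Helper174_CycSTS.Fam3
import Pool.Agent.Helper174_CycSTS.Fam9
import Pool.Agent.Helper174_CycSTS.Fam15

/-!
The number of cyclic Steiner triple systems of order `n` tends to infinity.
-/

set_option autoImplicit false

namespace Pool.Agent.Helper174_CycSTS

theorem exists_nd (n : ℕ) (hn : 100 ≤ n) (h : n % 6 = 1 ∨ n % 6 = 3) :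
    ∃ (k w : ℕ) (a b : ℕ → ℕ), (w = 1 ∨ w = 3) ∧ n = 6 * k + w ∧ ND n k a b := by
  have h18 : n % 18 = 1 ∨ n % 18 = 7 ∨ n % 18 = 13 ∨ n % 18 = 3 ∨ n % 18 = 9 ∨ n % 18 = 15 := by
    omega
  rcases h18 with h | h | h | h | h | h
  · have e : n = 18 * (n / 18) + 1 := by omega
    refine ⟨3 * (n / 18), 1, a1 (n / 18), b1 (n / 18), Or.inl rfl, by omega, ?_⟩
    have h2 := nd1 (n / 18) (by omega)
    rw [← e] at h2
    exact h2
  · have e : n = 18 * (n / 18) + 7 := by omega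
    refine ⟨3 * (n / 18) + 1, 1, a7 (n / 18), b7 (n / 18), Or.inl rfl, by omega, ?_⟩
    have h2 := nd7 (n / 18) (by omega)
    rw [← e] at h2
    exact h2
  · have e : n = 18 * (n / 18) + 13 := by omega
    refine ⟨3 * (n / 18) + 2, 1, a13 (n / 18), b13 (n / 18), Or.inl rfl, by omega, ?_⟩
    have h2 := nd13 (n / 18) (by omega)
    rw [← e] at h2
    exact h2
  · have e : n = 18 * (n / 18) + 3 := by omega
    refine ⟨3 * (n / 18), 3, a3 (n / 18), b3 (n / 18), Or.inr rfl, by omega, ?_⟩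
    have h2 := nd3 (n / 18) (by omega)
    rw [← e] at h2
    exact h2
  · have e : n = 18 * (n / 18) + 9 := by omega
    refine ⟨3 * (n / 18) + 1, 3, a9 (n / 18), b9 (n / 18), Or.inr rfl, by omega, ?_⟩
    have h2 := nd9 (n / 18) (by omega)
    rw [← e] at h2
    exact h2
  · have e : n = 18 * (n / 18) + 15 := by omega
    refine ⟨3 * (n / 18) + 2, 3, a15 (n / 18), b15 (n / 18), Or.inr rfl, by omega, ?_⟩
    have h2 := nd15 (n / 18) (by omega)
    rw [← e] at h2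
    exact h2

theorem pow_bound (L : ℕ) (hL : 12 ≤ L) : 6 * (L + L ^ 2) + 3 ≤ 2 ^ (L - 1) := by
  induction L, hL using Nat.le_induction with
  | base => norm_num
  | succ L hL ih =>
    have e : L + 1 - 1 = (L - 1) + 1 := by omega
    have h2 : 2 ^ (L + 1 - 1) = 2 ^ (L - 1) * 2 := by rw [e, pow_succ]
    rw [h2]
    nlinarith

theorem main (M : ℕ) : ∃ N : ℕ, ∀ n : ℕ, N ≤ n → (n % 6 = 1 ∨ n % 6 = 3) →
      ∃ B : Fin M → Finset (Finset (ZMod n)),
        (∀ i, (∀ b ∈ B i, b.card = 3) ∧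
          (∀ x y : ZMod n, x ≠ y → ∃! b : Finset (ZMod n), b ∈ B i ∧ x ∈ b ∧ y ∈ b) ∧
          (∀ b ∈ B i, b.image (fun x => x + 1) ∈ B i)) ∧
        (∀ i j, i ≠ j → ¬ ∃ σ : Equiv.Perm (ZMod n),
          ∀ b : Finset (ZMod n), b ∈ B i ↔ b.map σ.toEmbedding ∈ B j) := by
  refine ⟨2 ^ (M + 15), fun n hn hmod => ?_⟩
  have h15 : 2 ^ 15 ≤ 2 ^ (M + 15) := Nat.pow_le_pow_right (by norm_num) (by omega)
  have : NeZero n := ⟨by intro h; rw [h] at hn; omega⟩
  obtain ⟨k, w, a, b, hw, hkw, hnd⟩ := exists_nd n (by omega) hmod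
  obtain ⟨D⟩ := hnd.exists_data hw hkw
  have hn0 : n ≠ 0 := NeZero.ne n
  have hL : n < 2 ^ (Nat.log 2 n + 1) := Nat.lt_pow_succ_log_self (by norm_num) n
  have hlog : M + 15 ≤ Nat.log 2 n := (Nat.le_log_iff_pow_le (by norm_num) hn0).2 hn
  have hle : 2 ^ (Nat.log 2 n) ≤ n := Nat.pow_log_le_self 2 hn0
  generalize Nat.log 2 n = l at hL hlog hle
  have hpb := pow_bound (l + 1) (by omega)
  rw [Nat.add_sub_cancel] at hpb
  have hk : M + (l + 1) * (l + 1) ≤ k := by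
    have : 6 * ((l + 1) + (l + 1) ^ 2) + 3 ≤ 6 * k + w := by
      rw [← hkw]; exact hpb.trans hle
    have h3 : (l + 1) ^ 2 = (l + 1) * (l + 1) := by ring
    rw [h3] at this
    omega
  have hM : M * n ^ (l + 1) ≤ 2 ^ k := by
    calc M * n ^ (l + 1) ≤ 2 ^ M * (2 ^ (l + 1)) ^ (l + 1) :=
          Nat.mul_le_mul (Nat.lt_two_pow_self).le (Nat.pow_le_pow_left hL.le _)
      _ = 2 ^ (M + (l + 1) * (l + 1)) := by rw [← pow_mul, ← pow_add]
      _ ≤ 2 ^ k := Nat.pow_le_pow_right (by norm_num) hk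
  obtain ⟨e, he⟩ := D.exists_family hL hM
  refine ⟨fun i => blk (tp (D.tau (e i))), fun i => ⟨?_, ?_, ?_⟩, ?_⟩
  · intro b hb
    exact card_blk (D.isDif _).isSt hb
  · intro x y hxy
    exact existsUnique_blk (D.isDif _).isSt hxy
  · intro b hb
    exact shift_mem_blk hb
  · rintro i j hij ⟨σ, hσ⟩
    apply he i j hij
    exact ⟨σ, iso_of_blk (D.isDif _).isSt (D.isDif _).isSt fun b hb => (hσ b).1 hb⟩

end Pool.Agent.Helper174_CycSTS
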