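import Pool.Agent.Helper174_CycSTS.Cyclic

/-!
Difference triples given by natural numbers.
-/

set_option autoImplicit false

namespace Pool.Agent.Helper174_CycSTS

/-- the distance of `c` to the nearest multiple of `n`, for `c < n` -/
def nm (n c : ℕ) : ℕ := if 2 * c < n then c else n - c

/-- the numbers `a i`, `b i`, `nm n (a i + b i)` with `i < k` are distinct, positive, smaller than
`n / 2` and different from `n / 3` -/
structure ND (n k : ℕ) (a b : ℕ → ℕ) : Prop where
  odd : n % 2 = 1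
  bd : ∀ i < k, 0 < a i ∧ 2 * a i < n ∧ 0 < b i ∧ 2 * b i < n
  th : ∀ i < k, 3 * a i ≠ n ∧ 3 * b i ≠ n ∧ 3 * nm n (a i + b i) ≠ n
  aa : ∀ i < k, ∀ i' < k, a i = a i' → i = i'
  bb : ∀ i < k, ∀ i' < k, b i = b i' → i = i'
  cc : ∀ i < k, ∀ i' < k, nm n (a i + b i) = nm n (a i' + b i') → i = i'
  ab : ∀ i < k, ∀ i' < k, a i ≠ b i'
  ac : ∀ i < k, ∀ i' < k, a i ≠ nm n (a i' + b i')
  bc : ∀ i < k, ∀ i' < k, b i ≠ nm n (a i' + b i')

theorem cast_eq {n u u' : ℕ} [NeZero n] (h : 2 * u < n) (h' : 2 * u' < n)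
    (e : (u : ZMod n) = u' ∨ (u : ZMod n) = - u') : u = u' := by
  rcases e with e | e
  · have h1 := (ZMod.natCast_eq_natCast_iff' _ _ _).1 e
    rwa [Nat.mod_eq_of_lt (by omega), Nat.mod_eq_of_lt (by omega)] at h1
  · have h1 : ((u + u' : ℕ) : ZMod n) = 0 := by
      rw [Nat.cast_add, e, neg_add_cancel]
    rw [ZMod.natCast_eq_zero_iff] at h1
    have h2 := Nat.eq_zero_of_dvd_of_lt h1 (by omega)
    omega

theorem cast_ne_neg {n u : ℕ} [NeZero n] (h : 2 * u < n) (h0 : 0 < u) :
    (u : ZMod n) ≠ - u := by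
  intro e
  have h1 : ((u + u : ℕ) : ZMod n) = 0 := by
    have h2 : (u : ZMod n) + u = u + - u := by rw [← e]
    rw [Nat.cast_add, h2, add_neg_cancel]
  rw [ZMod.natCast_eq_zero_iff] at h1
  have h2 := Nat.eq_zero_of_dvd_of_lt h1 (by omega)
  omega

namespace ND

variable {n k : ℕ} {a b : ℕ → ℕ}

/-- the difference triples -/
def A (n k : ℕ) (a b : ℕ → ℕ) (i : Fin k) : Fin 3 → ZMod n :=
  ![(a i : ZMod n), (b i : ZMod n), - ((a i + b i : ℕ) : ZMod n)]

/-- the representatives -/
def v (n k : ℕ) (a b : ℕ → ℕ) (i : Fin k) : Fin 3 → ℕ :=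
  ![a i, b i, nm n (a i + b i)]

theorem A_eq (h : ND n k a b) (i : Fin k) (j : Fin 3) :
    A n k a b i j = v n k a b i j ∨ A n k a b i j = - (v n k a b i j : ZMod n) := by
  have hb := h.bd i i.2
  fin_cases j
  · left; rfl
  · left; rfl
  · simp only [A, v, nm]
    change - ((a i + b i : ℕ) : ZMod n) = ((if 2 * (a i + b i) < n then a i + b i
      else n - (a i + b i) : ℕ) : ZMod n) ∨ - ((a i + b i : ℕ) : ZMod n) =
      - ((if 2 * (a i + b i) < n then a i + b i else n - (a i + b i) : ℕ) : ZMod n)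
    split_ifs with hc
    · right; rfl
    · left
      rw [Nat.cast_sub (by omega)]
      simp

theorem v_bd (h : ND n k a b) (i : Fin k) (j : Fin 3) :
    0 < v n k a b i j ∧ 2 * v n k a b i j < n ∧ 3 * v n k a b i j ≠ n := by
  have hb := h.bd i i.2
  have ht := h.th i i.2
  have ho := h.odd
  fin_cases j
  · exact ⟨hb.1, hb.2.1, ht.1⟩
  · exact ⟨hb.2.2.1, hb.2.2.2, ht.2.1⟩
  · refine ⟨?_, ?_, ht.2.2⟩
    · change 0 < nm n (a i + b i)
      unfold nm; split_ifs <;> omega
    · change 2 * nm n (a i + b i) < n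
      unfold nm; split_ifs <;> omega

theorem v_inj (h : ND n k a b) (i i' : Fin k) (j j' : Fin 3)
    (e : v n k a b i j = v n k a b i' j') : i = i' ∧ j = j' := by
  fin_cases j <;> fin_cases j'
  · exact ⟨Fin.ext (h.aa i i.2 i' i'.2 e), rfl⟩
  · exact absurd e (h.ab i i.2 i' i'.2)
  · exact absurd e (h.ac i i.2 i' i'.2)
  · exact absurd e.symm (h.ab i' i'.2 i i.2)
  · exact ⟨Fin.ext (h.bb i i.2 i' i'.2 e), rfl⟩
  · exact absurd e (h.bc i i.2 i' i'.2)
  · exact absurd e.symm (h.ac i' i'.2 i i.2)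
  · exact absurd e.symm (h.bc i' i'.2 i i.2)
  · exact ⟨Fin.ext (h.cc i i.2 i' i'.2 e), rfl⟩

/-- the elements outside the full orbits -/
def Z (n w : ℕ) (l : Fin w) : ZMod n := ((l : ℕ) * (n / w) : ℕ)

theorem inj_inr [NeZero n] (h : ND n k a b) :
    Function.Injective (fun p : Fin k × Fin 3 × Bool =>
      if p.2.2 then - A n k a b p.1 p.2.1 else A n k a b p.1 p.2.1) := by
  rintro ⟨i, j, e⟩ ⟨i', j', e'⟩ heq
  simp only at heq
  have h1 := h.A_eq i j
  have h1' := h.A_eq i' j'
  have hb := h.v_bd i j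
  have hb' := h.v_bd i' j'
  have h2 : v n k a b i j = v n k a b i' j' := by
    apply cast_eq hb.2.1 hb'.2.1
    rcases h1 with h1 | h1 <;> rcases h1' with h1' | h1' <;> rw [h1, h1'] at heq <;>
      cases e <;> cases e' <;> simp at heq <;> first
        | exact Or.inl heq
        | exact Or.inr heq
        | exact Or.inr (by rw [← heq, neg_neg])
  obtain ⟨rfl, rfl⟩ := h.v_inj _ _ _ _ h2
  have h3 : e = e' := by
    have h4 : A n k a b i j ≠ - A n k a b i j := by
      rcases h1 with h1 | h1 <;> rw [h1]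
      · exact cast_ne_neg hb.2.1 hb.1
      · rw [neg_neg]
        exact (cast_ne_neg hb.2.1 hb.1).symm
    cases e <;> cases e'
    · rfl
    · exact absurd heq h4
    · exact absurd heq.symm h4
    · rfl
  rw [h3]

theorem pm (h : ND n k a b) (p : Fin k × Fin 3 × Bool) :
    ∃ u : ℕ, 0 < u ∧ 2 * u < n ∧ 3 * u ≠ n ∧
    ((if p.2.2 then - A n k a b p.1 p.2.1 else A n k a b p.1 p.2.1) = (u : ZMod n) ∨
    (if p.2.2 then - A n k a b p.1 p.2.1 else A n k a b p.1 p.2.1) = - (u : ZMod n)) := by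
  obtain ⟨i, j, e⟩ := p
  have hb := h.v_bd i j
  refine ⟨v n k a b i j, hb.1, hb.2.1, hb.2.2, ?_⟩
  rcases h.A_eq i j with h1 | h1 <;> simp only [h1] <;> cases e <;> simp

/-- the data for `n = 6 k + w` -/
theorem exists_data [NeZero n] (h : ND n k a b) {w : ℕ} (hw : w = 1 ∨ w = 3)
    (hn : n = 6 * k + w) : Nonempty (Data n k w) := by
  have hcard : Fintype.card (Fin w ⊕ (Fin k × Fin 3 × Bool)) = Fintype.card (ZMod n) := by
    rw [ZMod.card, Fintype.card_sum, Fintype.card_prod, Fintype.card_prod, Fintype.card_bool,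
      Fintype.card_fin, Fintype.card_fin, Fintype.card_fin]
    omega
  have hsum : ∀ i, A n k a b i 0 + A n k a b i 1 + A n k a b i 2 = 0 := by
    intro i
    change (a i : ZMod n) + (b i : ZMod n) + - ((a i + b i : ℕ) : ZMod n) = 0
    rw [Nat.cast_add, add_neg_cancel]
  rcases hw with rfl | rfl
  · refine ⟨⟨A n k a b, hsum, fun _ => 0, fun _ => by ring, ?_⟩⟩
    rw [Fintype.bijective_iff_injective_and_card]
    refine ⟨?_, hcard⟩
    apply Function.Injective.sumElim
    · intro x y _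
      exact Subsingleton.elim _ _
    · exact h.inj_inr
    · intro l p e
      obtain ⟨u, hu0, hu2, hu3, hu⟩ := h.pm p
      rw [← e] at hu
      have h0 : 0 = u := cast_eq (n := n) (by omega) hu2 (by simpa using hu)
      omega
  · obtain ⟨m, hm⟩ : ∃ m, n = 3 * m := ⟨2 * k + 1, by omega⟩
    have hm3 : (3 : ZMod n) * (m : ZMod n) = 0 := by
      have : ((3 * m : ℕ) : ZMod n) = 0 := by rw [← hm]; exact ZMod.natCast_self n
      simpa using this
    have hz : ∀ l : Fin 3, ∃ u : ℕ, 2 * u < n ∧ (u = 0 ∨ 3 * u = n) ∧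
        ((![(0 : ZMod n), (m : ZMod n), - (m : ZMod n)] l) = u ∨
          (![(0 : ZMod n), (m : ZMod n), - (m : ZMod n)] l) = - (u : ZMod n)) := by
      intro l
      fin_cases l
      · exact ⟨0, by omega, Or.inl rfl, by simp⟩
      · exact ⟨m, by omega, Or.inr hm.symm, by simp⟩
      · exact ⟨m, by omega, Or.inr hm.symm, by simp⟩
    have hmn : (m : ZMod n) ≠ - m := cast_ne_neg (by omega) (by omega)
    have hm0 : (m : ZMod n) ≠ 0 := by
      intro e
      apply hmn
      rw [e, neg_zero]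
    refine ⟨⟨A n k a b, hsum, ![0, m, -m], ?_, ?_⟩⟩
    · intro l
      fin_cases l
      · simp
      · exact hm3
      · change (3 : ZMod n) * (-m) = 0
        rw [mul_neg, hm3, neg_zero]
    · rw [Fintype.bijective_iff_injective_and_card]
      refine ⟨?_, hcard⟩
      apply Function.Injective.sumElim
      · intro x y e
        fin_cases x <;> fin_cases y
        · rfl
        · exact absurd e.symm hm0
        · exact absurd e.symm (neg_ne_zero.2 hm0)
        · exact absurd e hm0
        · rfl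
        · exact absurd e hmn
        · exact absurd e (neg_ne_zero.2 hm0)
        · exact absurd e.symm hmn
        · rfl
      · exact h.inj_inr
      · intro l p e
        obtain ⟨u, hu0, hu2, hu3, hu⟩ := h.pm p
        obtain ⟨u', hu2', hu3', hu'⟩ := hz l
        rw [← e] at hu
        have h0 : u' = u := by
          apply cast_eq (n := n) hu2' hu2
          rcases hu with hu | hu <;> rcases hu' with hu' | hu' <;> rw [hu'] at hu
          · exact Or.inl hu
          · exact Or.inr (by rw [← hu, neg_neg])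
          · exact Or.inr hu
          · exact Or.inl (neg_injective hu)
        omega

end ND

end Pool.Agent.Helper174_CycSTS
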